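import Mathlib
import Pool.Agent.H902R3.XI.Stmts

open Complex MeasureTheory Filter Topology Set Metric
open scoped Real ENNReal

namespace Pool.Agent.H301X

open Pool.Agent.H902R3.XI

lemma norm_Gamma_le {z : ℂ} (hz : 0 < z.re) : ‖Complex.Gamma z‖ ≤ Real.Gamma z.re := by
  rw [Complex.Gamma_eq_integral hz, Real.Gamma_eq_integral hz, Complex.GammaIntegral]
  refine (norm_integral_le_integral_norm _).trans (le_of_eq ?_)
  refine setIntegral_congr_fun measurableSet_Ioi fun t ht => ?_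
  rw [norm_mul, Complex.norm_cpow_eq_rpow_re_of_pos ht, Complex.norm_real, Real.norm_eq_abs,
    abs_of_pos (Real.exp_pos _), Complex.sub_re, Complex.one_re]

lemma Gamma_le {x : ℝ} (hx : 1 / 4 ≤ x) :
    Real.Gamma x ≤ 4 * (x + 2) ^ (x + 2) := by
  have hx0 : 0 < x := by linarith
  have h1 : Real.Gamma (x + 1) = x * Real.Gamma x := Real.Gamma_add_one hx0.ne'
  have h2 : Real.Gamma (x + 1 + 1) = (x + 1) * Real.Gamma (x + 1) :=
    Real.Gamma_add_one (by linarith)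
  have hG : 0 < Real.Gamma x := Real.Gamma_pos_of_pos hx0
  have hG1 : 0 < Real.Gamma (x + 1) := Real.Gamma_pos_of_pos (by linarith)
  have h3 : Real.Gamma x ≤ 4 * Real.Gamma (x + 2) := by
    have e : x + 2 = x + 1 + 1 := by ring
    rw [e, h2, h1]
    nlinarith
  set N : ℕ := ⌈x⌉₊ with hN
  have hxN : x ≤ N := Nat.le_ceil x
  have hNx : (N : ℝ) < x + 1 := Nat.ceil_lt_add_one hx0.le
  have h4 : Real.Gamma (x + 2) ≤ Real.Gamma ((N : ℝ) + 2) := by
    refine Real.Gamma_strictMonoOn_Ici.monotoneOn ?_ ?_ (by linarith)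
    · simp; linarith
    · simp
  have h5 : Real.Gamma ((N : ℝ) + 2) = ((N + 1).factorial : ℝ) := by
    have := Real.Gamma_nat_eq_factorial (N + 1)
    rw [← this]
    push_cast
    ring_nf
  have h6 : ((N + 1).factorial : ℝ) ≤ ((N + 1 : ℕ) : ℝ) ^ (N + 1) := by
    exact_mod_cast Nat.factorial_le_pow (N + 1)
  have h7 : (((N + 1 : ℕ) : ℝ)) ^ (N + 1) ≤ (x + 2) ^ (x + 2) := by
    rw [← Real.rpow_natCast]
    have a1 : ((N + 1 : ℕ) : ℝ) ≤ x + 2 := by push_cast; linarith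
    calc ((N + 1 : ℕ) : ℝ) ^ ((N + 1 : ℕ) : ℝ) ≤ (x + 2) ^ ((N + 1 : ℕ) : ℝ) :=
          Real.rpow_le_rpow (by positivity) a1 (by positivity)
      _ ≤ (x + 2) ^ (x + 2) := Real.rpow_le_rpow_of_exponent_le (by linarith) a1
  calc Real.Gamma x ≤ 4 * Real.Gamma (x + 2) := h3
    _ ≤ 4 * (x + 2) ^ (x + 2) := by
        have := h4.trans (h5.le.trans (h6.trans h7)); linarith

theorem taskGup : TaskGup := by
  intro B hB
  set c : ℝ := B / 2 + 2 with hc
  have hc2 : 2 < c := by rw [hc]; linarith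
  refine ⟨Real.exp (max 2 (16 * c ^ 3)), fun T hT s hs hs2 => ?_⟩
  have hT0 : 0 < T := (Real.exp_pos _).trans_le hT
  set L : ℝ := Real.log T with hL
  have hLmax : max 2 (16 * c ^ 3) ≤ L := by
    rw [hL, Real.le_log_iff_exp_le hT0]; exact hT
  have hL2 : 2 ≤ L := (le_max_left _ _).trans hLmax
  have hLc : 16 * c ^ 3 ≤ L := (le_max_right _ _).trans hLmax
  have hL0 : 0 < L := by linarith
  set x : ℝ := s.re / 2 with hx
  have hx4 : 1 / 4 ≤ x := by rw [hx]; linarith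
  have hxL : x + 2 ≤ c * L := by rw [hx, hc]; nlinarith
  have hre : (s / 2).re = x := by simp [hx]
  have hGam : ‖Complex.Gamma (s / 2)‖ ≤ 4 * (x + 2) ^ (x + 2) := by
    have := norm_Gamma_le (z := s / 2) (by rw [hre]; linarith)
    rw [hre] at this
    exact this.trans (Gamma_le hx4)
  have hpi : ‖(π : ℂ) ^ (-s / 2)‖ ≤ 1 := by
    rw [Complex.norm_cpow_eq_rpow_re_of_pos Real.pi_pos]
    refine Real.rpow_le_one_of_one_le_of_nonpos (by linarith [Real.pi_gt_three]) ?_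
    simp; linarith
  have hss : ‖s * (s - 1) / 2‖ ≤ (1 + ‖s‖) ^ 2 / 2 := by
    rw [norm_div, norm_mul]
    have h2 : ‖(2 : ℂ)‖ = 2 := by simp
    rw [h2]
    have h1 : ‖s - 1‖ ≤ ‖s‖ + 1 := by simpa using norm_sub_le s 1
    have h0 := norm_nonneg s
    have : ‖s‖ * ‖s - 1‖ ≤ ‖s‖ * (‖s‖ + 1) := mul_le_mul_of_nonneg_left h1 h0
    have : ‖s‖ * ‖s - 1‖ ≤ (1 + ‖s‖) ^ 2 := by nlinarith
    linarith
  have hkey : 2 * (x + 2) ^ (x + 2) ≤ Real.exp (L ^ 2) := by
    have hcL : 0 < c * L := by positivity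
    have e1 : (x + 2) ^ (x + 2) ≤ (c * L) ^ (c * L) := by
      have hcL1 : 1 ≤ c * L := by nlinarith
      calc (x + 2) ^ (x + 2) ≤ (c * L) ^ (x + 2) :=
            Real.rpow_le_rpow (by linarith) hxL (by linarith)
        _ ≤ (c * L) ^ (c * L) := Real.rpow_le_rpow_of_exponent_le hcL1 hxL
    have e2 : (c * L) ^ (c * L) = Real.exp (Real.log (c * L) * (c * L)) := by
      rw [Real.rpow_def_of_pos hcL]
    have e3 : Real.log (c * L) ≤ 2 * Real.sqrt (c * L) := by
      have := Real.log_le_sub_one_of_pos (Real.sqrt_pos.mpr hcL)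
      rw [Real.log_sqrt hcL.le] at this
      linarith
    have e4 : Real.log (c * L) * (c * L) ≤ L ^ 2 / 2 := by
      have hsq : Real.sqrt (c * L) * (4 * c) ≤ L := by
        have h1 : Real.sqrt (c * L) * (4 * c) = Real.sqrt (c * L * (4 * c) ^ 2) := by
          rw [Real.sqrt_mul hcL.le, Real.sqrt_sq (by positivity)]
        rw [h1]
        refine Real.sqrt_le_iff.mpr ⟨hL0.le, ?_⟩
        have : c * L * (4 * c) ^ 2 = 16 * c ^ 3 * L := by ring
        rw [this]
        nlinarith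
      have : Real.log (c * L) * (c * L) ≤ 2 * Real.sqrt (c * L) * (c * L) :=
        mul_le_mul_of_nonneg_right e3 hcL.le
      nlinarith
    have e5 : (2 : ℝ) ≤ Real.exp (L ^ 2 / 2) := by
      have := Real.add_one_le_exp (L ^ 2 / 2)
      nlinarith
    calc 2 * (x + 2) ^ (x + 2) ≤ Real.exp (L ^ 2 / 2) * Real.exp (L ^ 2 / 2) := by
          refine mul_le_mul e5 ?_ (by positivity) (Real.exp_pos _).le
          rw [e2] at e1
          exact e1.trans (Real.exp_le_exp.mpr e4)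
      _ = Real.exp (L ^ 2) := by rw [← Real.exp_add]; ring_nf
  unfold g
  rw [norm_mul, norm_mul]
  have hP : 0 ≤ (x + 2) ^ (x + 2) := by positivity
  calc ‖s * (s - 1) / 2‖ * ‖(π : ℂ) ^ (-s / 2)‖ * ‖Complex.Gamma (s / 2)‖
      ≤ (1 + ‖s‖) ^ 2 / 2 * 1 * (4 * (x + 2) ^ (x + 2)) := by
        refine mul_le_mul (mul_le_mul hss hpi (norm_nonneg _) (by positivity)) hGam
          (norm_nonneg _) (by positivity)
    _ = (1 + ‖s‖) ^ 2 * (2 * (x + 2) ^ (x + 2)) := by ring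
    _ ≤ (1 + ‖s‖) ^ 2 * Real.exp (L ^ 2) := mul_le_mul_of_nonneg_left hkey (by positivity)

end Pool.Agent.H301X
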